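import Pool.Agent.H103Z.NbMain

/-!
For every `1 < p < ∞` the real space `L_p(ℝ)` has a Schauder basis consisting of non-negative
functions.
-/

namespace Pool.Agent.Results.MP_ada34c_an.ANonnegBasis

open MeasureTheory

theorem result :
    ∀ (p : ENNReal) [Fact (1 ≤ p)], 1 < p → p ≠ ⊤ →
      ∃ f : ℕ → Lp ℝ p (volume : Measure ℝ),
        (∀ n : ℕ, ∀ᵐ x ∂(volume : Measure ℝ), 0 ≤ f n x) ∧
        ∀ g : Lp ℝ p (volume : Measure ℝ), ∃! a : ℕ → ℝ,
          Filter.Tendsto (fun N : ℕ => ∑ n ∈ Finset.range N, a n • f n) Filter.atTop (nhds g) :=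
  fun p _ h1 h2 => Pool.Agent.H103Z.Nb.main p h1 h2

end Pool.Agent.Results.MP_ada34c_an.ANonnegBasis
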